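import Mathlib

/-!
# Location of maximal boundary stress in doubly symmetric convex domains

The plane `ℝ²` is modelled by `ℂ` (Euclidean norm, real inner product, Mathlib's gradient and
Laplacian).  We construct a bounded convex planar domain, symmetric in both coordinate axes, with
boundary of class `C²`, whose points of maximal stress in the closed first quadrant are strictly
closer to the farthest boundary point than to the nearest boundary point.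

The domain is the region bounded by the zero set near the unit circle of
`u (z) = (1 - |z|²) / 2 + (1 / 1000) * Re (2 z² + z⁴ + z⁶)`, and `u` is its torsion function.
-/

set_option autoImplicit false

open Complex InnerProductSpace Metric Set Topology

namespace Pool.Agent.Results.MP_f43ce7_an.MaximalStress

/-! ## Definitions used in the statement -/

/-- The set `Ω` is symmetric with respect to both coordinate axes. -/
def AxesSymmetric (Ω : Set ℂ) : Prop :=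
  ∀ x y : ℝ, (⟨x, y⟩ : ℂ) ∈ Ω → (⟨-x, y⟩ : ℂ) ∈ Ω ∧ (⟨x, -y⟩ : ℂ) ∈ Ω

/-- The boundary of `Ω` is of class `C²`: near each boundary point `q` there is a `C²` function
`F` with nonvanishing derivative at `q` such that, locally, `Ω = {F > 0}` and `∂Ω = {F = 0}`. -/
def HasC2Boundary (Ω : Set ℂ) : Prop :=
  ∀ q ∈ frontier Ω, ∃ V : Set ℂ, IsOpen V ∧ q ∈ V ∧ ∃ F : ℂ → ℝ, ContDiff ℝ 2 F ∧
    fderiv ℝ F q ≠ 0 ∧ (∀ z ∈ V, z ∈ Ω ↔ 0 < F z) ∧ (∀ z ∈ V, z ∈ frontier Ω ↔ F z = 0)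

/-- The domains of the problem: bounded, open, nonempty, convex, symmetric in both axes, with
`C²` boundary, and not a disk. -/
def Admissible (Ω : Set ℂ) : Prop :=
  IsOpen Ω ∧ Ω.Nonempty ∧ Bornology.IsBounded Ω ∧ Convex ℝ Ω ∧ AxesSymmetric Ω ∧
    HasC2Boundary Ω ∧ ∀ (c : ℂ) (r : ℝ), Ω ≠ Metric.ball c r

/-- `u` is the torsion function of `Ω`: `-Δ u = 2` in `Ω` and `u = 0` on `∂Ω`. -/
def IsTorsionFunction (Ω : Set ℂ) (u : ℂ → ℝ) : Prop :=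
  ContinuousOn u (closure Ω) ∧ ContDiffOn ℝ 2 u Ω ∧
    (∀ z ∈ Ω, -(Laplacian.laplacian u z) = 2) ∧ ∀ z ∈ frontier Ω, u z = 0

/-- `σ` is the stress of `Ω` on `closure Ω`: the continuous extension to `closure Ω` of `|∇u|`,
where `u` is the torsion function of `Ω`. -/
def IsStress (Ω : Set ℂ) (σ : ℂ → ℝ) : Prop :=
  ∃ u : ℂ → ℝ, IsTorsionFunction Ω u ∧ ContinuousOn σ (closure Ω) ∧ ∀ z ∈ Ω, σ z = ‖gradient u z‖

/-- The arc of `∂Ω` in the closed first quadrant. -/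
def arc (Ω : Set ℂ) : Set ℂ := {z | z ∈ frontier Ω ∧ 0 ≤ z.re ∧ 0 ≤ z.im}

/-- `x` is the unique point of the arc at maximal distance from the origin. -/
def IsFarthest (Ω : Set ℂ) (x : ℂ) : Prop := x ∈ arc Ω ∧ ∀ z ∈ arc Ω, z ≠ x → ‖z‖ < ‖x‖

/-- `x` is the unique point of the arc at minimal distance from the origin. -/
def IsNearest (Ω : Set ℂ) (x : ℂ) : Prop := x ∈ arc Ω ∧ ∀ z ∈ arc Ω, z ≠ x → ‖x‖ < ‖z‖

/-- `p` is a point of the arc at which the stress attains its maximum over `∂Ω`. -/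
def IsMaxStressPoint (Ω : Set ℂ) (p : ℂ) : Prop :=
  p ∈ arc Ω ∧ ∃ σ : ℂ → ℝ, IsStress Ω σ ∧ ∀ q ∈ frontier Ω, σ q ≤ σ p

/-! ## Real polynomial estimates -/

def hp (X R : ℝ) : ℝ := 2 * X + (2 * X ^ 2 - R ^ 2) + (4 * X ^ 3 - 3 * X * R ^ 2)
def kp (X R : ℝ) : ℝ := 4 * X + 4 * (2 * X ^ 2 - R ^ 2) + 6 * (4 * X ^ 3 - 3 * X * R ^ 2)
def np (X R : ℝ) : ℝ :=
  R * (16 + 16 * R ^ 2 + 36 * R ^ 4 + 32 * X + 48 * (2 * X ^ 2 - R ^ 2) + 48 * R ^ 2 * X)
def sp (X R : ℝ) : ℝ := 2 * X + 3 * (2 * X ^ 2 - R ^ 2) + 5 * (4 * X ^ 3 - 3 * X * R ^ 2)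

/-- upper bound for `h` -/
lemma hp_le {X R : ℝ} (h1 : -R ≤ X) (h2 : X ≤ R) : hp X R ≤ 2 * R + R ^ 2 + R ^ 3 := by
  have : 2 * R + R ^ 2 + R ^ 3 - hp X R = (R - X) * (2 + 2 * (R + X) + (R + 2 * X) ^ 2) := by
    unfold hp; ring
  have h3 : 0 ≤ (R - X) * (2 + 2 * (R + X) + (R + 2 * X) ^ 2) := by
    apply mul_nonneg (by linarith)
    nlinarith [sq_nonneg (R + 2 * X)]
  linarith

lemma b3_pos {X R : ℝ} (h2 : R ≤ 3/2) : 0 < 2 + 2 * (X - R) + (2 * X - R) ^ 2 := by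
  nlinarith [sq_nonneg (2 * X - R + 1/2)]

lemma le_hp {X R : ℝ} (h3 : R ≤ 3/2) (h1 : -R ≤ X) : -2 * R + R ^ 2 - R ^ 3 ≤ hp X R := by
  have : hp X R - (-2 * R + R ^ 2 - R ^ 3) = (X + R) * (2 + 2 * (X - R) + (2 * X - R) ^ 2) := by
    unfold hp; ring
  have h4 := b3_pos (X := X) h3
  have h3 : 0 ≤ (X + R) * (2 + 2 * (X - R) + (2 * X - R) ^ 2) := by
    apply mul_nonneg (by linarith) h4.le
  linarith

/-- outer region -/
lemma outer_neg {X R : ℝ} (h1 : -R ≤ X) (h2 : X ≤ R) (h3 : 51/50 ≤ R) (h4 : R ≤ 121/100) :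
    (1 - R) / 2 + (1/1000) * hp X R < 0 := by
  have := hp_le h1 h2
  nlinarith [mul_nonneg (sub_nonneg.2 h3) (sub_nonneg.2 h4),
    mul_nonneg (mul_nonneg (sub_nonneg.2 h3) (sub_nonneg.2 h4)) (by linarith : 0 ≤ R)]

lemma inner_pos {X R : ℝ} (h0 : 0 ≤ R) (h1 : -R ≤ X) (h3 : R ≤ 49/50) :
    0 < (1 - R) / 2 + (1/1000) * hp X R := by
  have := le_hp (by linarith) h1
  nlinarith [mul_nonneg h0 (sub_nonneg.2 h3), mul_nonneg (mul_nonneg h0 (sub_nonneg.2 h3)) h0]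

/-- boundary points have `R` close to 1 -/
lemma R_bounds {X R : ℝ} (h0 : 0 ≤ R) (h1 : -R ≤ X) (h2 : X ≤ R) (h4 : R ≤ 121/100)
    (hU : (1 - R) / 2 + (1/1000) * hp X R = 0) : 0.995 ≤ R ∧ R ≤ 1.009 := by
  have h5 : R < 51/50 := by
    by_contra hcon
    have := outer_neg h1 h2 (not_lt.1 hcon) h4
    linarith
  have h6 : 49/50 < R := by
    by_contra hcon
    have := inner_pos h0 h1 (not_lt.1 hcon)
    linarith
  have h7 := hp_le h1 h2
  have h8 := le_hp (by linarith) h1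
  constructor
  · nlinarith [mul_nonneg (sub_nonneg.2 h5.le) (sub_nonneg.2 h6.le),
      mul_nonneg (mul_nonneg (sub_nonneg.2 h5.le) (sub_nonneg.2 h6.le)) h0]
  · nlinarith [mul_nonneg (sub_nonneg.2 h5.le) (sub_nonneg.2 h6.le),
      mul_nonneg (mul_nonneg (sub_nonneg.2 h5.le) (sub_nonneg.2 h6.le)) h0]

lemma far_aux {X R R0 : ℝ} (h1 : -R ≤ X) (h2 : X ≤ R) (hR2 : R ≤ 1.009)
    (hR3 : 0.995 ≤ R0) (hR4 : R0 ≤ 1.009)
    (e1 : (1 - R) / 2 + (1/1000) * hp X R = 0)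
    (e2 : (1 - R0) / 2 + (1/1000) * hp R0 R0 = 0) (hle : R0 ≤ R) : X = R ∧ R = R0 := by
  have k1 : hp R R - hp X R = (R - X) * (2 + 2 * (R + X) + (R + 2 * X) ^ 2) := by
    unfold hp; ring
  have k2 : hp R R - hp R0 R0 = (R - R0) * (2 + (R + R0) + (R ^ 2 + R * R0 + R0 ^ 2)) := by
    unfold hp; ring
  have k3 : (R - R0) * (1 - (2/1000) * (2 + (R + R0) + (R ^ 2 + R * R0 + R0 ^ 2)))
      + (2/1000) * ((R - X) * (2 + 2 * (R + X) + (R + 2 * X) ^ 2)) = 0 := by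
    have : R - R0 = (2/1000) * (hp X R - hp R0 R0) := by linarith
    rw [← k1]
    have : (R - R0) * (1 - (2/1000) * (2 + (R + R0) + (R ^ 2 + R * R0 + R0 ^ 2)))
        = (R - R0) - (2/1000) * (hp R R - hp R0 R0) := by
      rw [k2]; ring
    rw [this]; linarith
  have k4 : 0 < 1 - (2/1000) * (2 + (R + R0) + (R ^ 2 + R * R0 + R0 ^ 2)) := by
    nlinarith
  have k5 : 0 < 2 + 2 * (R + X) + (R + 2 * X) ^ 2 := by
    nlinarith [sq_nonneg (R + 2 * X)]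
  have k6 : 0 ≤ (R - R0) * (1 - (2/1000) * (2 + (R + R0) + (R ^ 2 + R * R0 + R0 ^ 2))) :=
    mul_nonneg (by linarith) k4.le
  have k7 : 0 ≤ (R - X) * (2 + 2 * (R + X) + (R + 2 * X) ^ 2) := mul_nonneg (by linarith) k5.le
  have k8 : (R - R0) * (1 - (2/1000) * (2 + (R + R0) + (R ^ 2 + R * R0 + R0 ^ 2))) = 0 := by
    linarith
  have k9 : (R - X) * (2 + 2 * (R + X) + (R + 2 * X) ^ 2) = 0 := by linarith
  rcases mul_eq_zero.1 k8 with h | h
  · rcases mul_eq_zero.1 k9 with h' | h'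
    · exact ⟨by linarith, by linarith⟩
    · exact absurd h' k5.ne'
  · exact absurd h k4.ne'

lemma near_aux {X R R1 : ℝ} (h1 : -R ≤ X) (hR1 : 0.995 ≤ R) (hR2 : R ≤ 1.009)
    (hR3 : 0.995 ≤ R1) (hR4 : R1 ≤ 1.009)
    (e1 : (1 - R) / 2 + (1/1000) * hp X R = 0)
    (e2 : (1 - R1) / 2 + (1/1000) * hp (-R1) R1 = 0) (hle : R ≤ R1) : X = -R ∧ R = R1 := by
  have k1 : hp X R - hp (-R) R = (X + R) * (2 + 2 * (X - R) + (2 * X - R) ^ 2) := by
    unfold hp; ring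
  have k2 : hp (-R1) R1 - hp (-R) R = (R1 - R) * (-2 + (R + R1) - (R ^ 2 + R * R1 + R1 ^ 2)) := by
    unfold hp; ring
  have k3 : (R1 - R) * (1 - (2/1000) * (-2 + (R + R1) - (R ^ 2 + R * R1 + R1 ^ 2)))
      + (2/1000) * ((X + R) * (2 + 2 * (X - R) + (2 * X - R) ^ 2)) = 0 := by
    rw [← k1]
    have : (R1 - R) * (1 - (2/1000) * (-2 + (R + R1) - (R ^ 2 + R * R1 + R1 ^ 2)))
        = (R1 - R) - (2/1000) * (hp (-R1) R1 - hp (-R) R) := by
      rw [k2]; ring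
    rw [this]; linarith
  have k4 : 0 < 1 - (2/1000) * (-2 + (R + R1) - (R ^ 2 + R * R1 + R1 ^ 2)) := by
    nlinarith
  have k5 : 0 < 2 + 2 * (X - R) + (2 * X - R) ^ 2 := b3_pos (by linarith)
  have k6 : 0 ≤ (R1 - R) * (1 - (2/1000) * (-2 + (R + R1) - (R ^ 2 + R * R1 + R1 ^ 2))) :=
    mul_nonneg (by linarith) k4.le
  have k7 : 0 ≤ (X + R) * (2 + 2 * (X - R) + (2 * X - R) ^ 2) := mul_nonneg (by linarith) k5.le
  have k8 : (R1 - R) * (1 - (2/1000) * (-2 + (R + R1) - (R ^ 2 + R * R1 + R1 ^ 2))) = 0 := by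
    linarith
  have k9 : (X + R) * (2 + 2 * (X - R) + (2 * X - R) ^ 2) = 0 := by linarith
  rcases mul_eq_zero.1 k8 with h | h
  · rcases mul_eq_zero.1 k9 with h' | h'
    · exact ⟨by linarith, by linarith⟩
    · exact absurd h' k5.ne'
  · exact absurd h k4.ne'

lemma sp_lower {X R : ℝ} (h1 : -R ≤ X) (h2 : X ≤ 1/40) (hR1 : 0.995 ≤ R) (hR2 : R ≤ 1.009) :
    -4.2 ≤ sp X R := by
  have k1 : sp X R - (-5 * R ^ 3 + 3 * R ^ 2 - 2 * R)
      = (X + R) * (5 * (2 * X - R) ^ 2 + 6 * (X - R) + 2) := by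
    unfold sp; ring
  have k2 : 0 ≤ 5 * (2 * X - R) ^ 2 + 6 * (X - R) + 2 := by
    nlinarith [mul_nonneg (sub_nonneg.2 h2) (sub_nonneg.2 h2),
      mul_nonneg (sub_nonneg.2 h2) (sub_nonneg.2 hR1),
      mul_nonneg (sub_nonneg.2 hR2) (sub_nonneg.2 hR1)]
  have k3 : 0 ≤ (X + R) * (5 * (2 * X - R) ^ 2 + 6 * (X - R) + 2) := mul_nonneg (by linarith) k2
  have k4 : -4.2 ≤ -5 * R ^ 3 + 3 * R ^ 2 - 2 * R := by
    nlinarith [mul_nonneg (sub_nonneg.2 hR2) (sub_nonneg.2 hR1),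
      mul_nonneg (mul_nonneg (sub_nonneg.2 hR2) (sub_nonneg.2 hR1)) (by linarith : (0:ℝ) ≤ R)]
  linarith

lemma sp_test {R : ℝ} (hR1 : 0.995 ≤ R) (hR2 : R ≤ 1.009) : sp (5/13 * R) R ≤ -5.7 := by
  have : sp (5/13 * R) R
      = (10/13) * R + (150/169 - 3) * R ^ 2 + (2500/2197 - 75/13) * R ^ 3 := by
    unfold sp; ring
  rw [this]
  nlinarith [mul_nonneg (sub_nonneg.2 hR2) (sub_nonneg.2 hR1),
    mul_nonneg (mul_nonneg (sub_nonneg.2 hR2) (sub_nonneg.2 hR1)) (by linarith : (0:ℝ) ≤ R),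
    mul_nonneg (mul_nonneg (sub_nonneg.2 hR1) (sub_nonneg.2 hR1)) (by linarith : (0:ℝ) ≤ R)]

lemma np_le {X R : ℝ} (h1 : -R ≤ X) (h2 : X ≤ R) (hR1 : 0.995 ≤ R) (hR2 : R ≤ 1.009) :
    np X R ≤ 300 := by
  have k1 : X ^ 2 ≤ R ^ 2 := by nlinarith
  have k2 : R ^ 2 ≤ 1.02 := by nlinarith
  have k3 : R ^ 4 ≤ 1.05 := by nlinarith [sq_nonneg R]
  have k4 : R ^ 2 * X ≤ 1.05 := by nlinarith [sq_nonneg R]
  unfold np
  nlinarith [sq_nonneg R, sq_nonneg X]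

lemma kp_le {X R : ℝ} (h1 : -R ≤ X) (h2 : X ≤ R) (hR1 : 0.995 ≤ R) (hR2 : R ≤ 1.009) :
    kp X R ≤ 100 := by
  have k1 : X ^ 2 ≤ R ^ 2 := by nlinarith
  have k2 : R ^ 2 ≤ 1.02 := by nlinarith
  have k3 : X ^ 3 ≤ 1.05 := by nlinarith [sq_nonneg X]
  have k4 : -(X * R ^ 2) ≤ 1.05 := by nlinarith [sq_nonneg R]
  unfold kp
  nlinarith [sq_nonneg R, sq_nonneg X]

/-! ## The torsion function -/

noncomputable def hol (z : ℂ) : ℂ := 2 * z ^ 2 + z ^ 4 + z ^ 6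
noncomputable def dhol (z : ℂ) : ℂ := 4 * z + 4 * z ^ 3 + 6 * z ^ 5
noncomputable def U (z : ℂ) : ℝ := (1 - ‖z‖ ^ 2) / 2 + (1 / 1000) * (hol z).re
noncomputable def G (z : ℂ) : ℂ := -z + (1 / 1000 : ℝ) * (starRingEnd ℂ) (dhol z)

def XX (z : ℂ) : ℝ := z.re ^ 2 - z.im ^ 2
def RR (z : ℂ) : ℝ := z.re ^ 2 + z.im ^ 2

lemma RR_eq (z : ℂ) : RR z = ‖z‖ ^ 2 := by
  rw [← Complex.normSq_eq_norm_sq, Complex.normSq_apply, RR]; ring

lemma RR_nonneg (z : ℂ) : 0 ≤ RR z := by unfold RR; positivity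

lemma XX_le (z : ℂ) : XX z ≤ RR z := by unfold XX RR; nlinarith [sq_nonneg z.im]

lemma neg_RR_le (z : ℂ) : -RR z ≤ XX z := by unfold XX RR; nlinarith [sq_nonneg z.re]

lemma U_eq (z : ℂ) : U z = (1 - RR z) / 2 + (1 / 1000) * hp (XX z) (RR z) := by
  rw [U]
  have : (hol z).re = hp (XX z) (RR z) := by
    simp only [hol, hp, XX, RR, pow_succ, pow_zero, one_mul, add_re, mul_re, mul_im, re_ofNat,
      im_ofNat]
    ring
  rw [this, RR_eq]

lemma dhol_sq (z : ℂ) : ‖dhol z‖ ^ 2 = np (XX z) (RR z) := by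
  rw [← Complex.normSq_eq_norm_sq, Complex.normSq_apply]
  simp only [dhol, np, XX, RR, pow_succ, pow_zero, one_mul, add_re, add_im, mul_re, mul_im,
    re_ofNat, im_ofNat]
  ring

lemma G_sq (z : ℂ) : ‖G z‖ ^ 2
    = RR z - (2 / 1000) * kp (XX z) (RR z) + (1 / 1000) ^ 2 * np (XX z) (RR z) := by
  rw [← dhol_sq, ← Complex.normSq_eq_norm_sq, Complex.normSq_apply,
    ← Complex.normSq_eq_norm_sq, Complex.normSq_apply]
  simp only [G, add_re, add_im, mul_re, mul_im, neg_re, neg_im, conj_re, conj_im, ofReal_re,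
    ofReal_im]
  have e1 : z.re * (dhol z).re - z.im * (dhol z).im = kp (XX z) (RR z) := by
    simp only [dhol, kp, XX, RR, pow_succ, pow_zero, one_mul, add_re, add_im, mul_re, mul_im,
      re_ofNat, im_ofNat]
    ring
  rw [← e1]
  simp only [RR]
  ring

/-- On the zero set of `U`, the squared length of the gradient. -/
lemma G_sq_of_zero (z : ℂ) (hz : U z = 0) : ‖G z‖ ^ 2
    = 1 - (2 / 1000) * sp (XX z) (RR z) + (1 / 1000) ^ 2 * np (XX z) (RR z) := by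
  rw [G_sq]
  rw [U_eq] at hz
  have : kp (XX z) (RR z) = hp (XX z) (RR z) + sp (XX z) (RR z) := by
    unfold kp hp sp; ring
  rw [this]
  linarith

lemma np_nonneg (z : ℂ) : 0 ≤ np (XX z) (RR z) := by rw [← dhol_sq]; positivity

lemma hasDerivAt_hol (z : ℂ) : HasDerivAt hol (dhol z) z := by
  have h2 := (hasDerivAt_pow 2 z).const_mul (2 : ℂ)
  have h4 := hasDerivAt_pow 4 z
  have h6 := hasDerivAt_pow 6 z
  have h : HasDerivAt hol _ z := (h2.add h4).add h6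
  refine h.congr_deriv ?_
  simp only [dhol]
  push_cast
  ring

lemma hasGradientAt_U (z : ℂ) : HasGradientAt U (G z) z := by
  rw [hasGradientAt_iff_hasFDerivAt]
  have h1 : HasFDerivAt (fun w : ℂ => ‖w‖ ^ 2) (2 • (innerSL ℝ z)) z := by
    exact (hasStrictFDerivAt_norm_sq z).hasFDerivAt
  have h2 : HasFDerivAt (fun w : ℂ => (hol w).re)
      (reCLM.comp ((ContinuousLinearMap.toSpanSingleton ℂ (dhol z)).restrictScalars ℝ)) z := by
    have h3 := (hasDerivAt_hol z).hasFDerivAt.restrictScalars ℝ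
    exact reCLM.hasFDerivAt.comp z h3
  have h3 := (((h1.const_sub 1).const_mul (1/2 : ℝ)).add (h2.const_mul (1 / 1000 : ℝ)))
  have h4 : HasFDerivAt U _ z := h3.congr_of_eventuallyEq (by
    filter_upwards with w
    simp [U]
    ring)
  refine h4.congr_fderiv ?_
  apply ContinuousLinearMap.ext
  intro v
  simp only [G, add_apply, smul_apply, neg_apply,
    innerSL_apply_apply, ContinuousLinearMap.comp_apply, reCLM_apply,
    ContinuousLinearMap.coe_restrictScalars', ContinuousLinearMap.toSpanSingleton_apply,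
    toDual_apply_apply, Complex.inner, smul_eq_mul, map_add, map_neg, map_mul, conj_conj]
  simp
  ring

lemma gradient_U (z : ℂ) : gradient U z = G z := (hasGradientAt_U z).gradient

lemma contDiff_U : ContDiff ℝ 2 U := by
  unfold U hol
  have h1 : ContDiff ℝ 2 (fun z : ℂ => ‖z‖ ^ 2) := contDiff_norm_sq ℝ
  have h2 : ContDiff ℝ 2 (fun z : ℂ => (2 * z ^ 2 + z ^ 4 + z ^ 6).re) := by
    have h3 : ContDiff ℝ 2 (fun z : ℂ => (2 * z ^ 2 + z ^ 4 + z ^ 6)) := by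
      fun_prop
    exact reCLM.contDiff.comp h3
  fun_prop

lemma continuous_U : Continuous U := contDiff_U.continuous

lemma continuous_G : Continuous G := by
  unfold G dhol
  fun_prop

lemma laplacian_normsq (z : ℂ) : Laplacian.laplacian (fun w : ℂ => ‖w‖ ^ 2) z = 4 := by
  rw [laplacian_eq_iteratedFDeriv_complexPlane]
  simp only [iteratedFDeriv_two_apply]
  have h1 : fderiv ℝ (fun w : ℂ => ‖w‖ ^ 2) = fun w => (2 : ℝ) • (innerSL ℝ w) := by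
    ext1 w
    have := (hasStrictFDerivAt_norm_sq w).hasFDerivAt.fderiv
    rw [this]
    ext v
    simp
    ring
  have h2 : HasFDerivAt (fun w : ℂ => (2 : ℝ) • (innerSL ℝ w))
      ((2 : ℝ) • (innerSL ℝ : ℂ →L[ℝ] ℂ →L[ℝ] ℝ)) z :=
    ((innerSL ℝ : ℂ →L[ℝ] ℂ →L[ℝ] ℝ).hasFDerivAt).const_smul (2:ℝ)
  rw [h1, h2.fderiv]
  have e1 : (innerSL ℝ (1:ℂ)) (1:ℂ) = (1:ℝ) := by
    rw [innerSL_apply_apply]; simp
  have e2 : (innerSL ℝ (I:ℂ)) (I:ℂ) = (1:ℝ) := by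
    rw [innerSL_apply_apply]; simp
  simp only [Matrix.cons_val_zero, Matrix.cons_val_one, smul_apply, e1, e2, smul_eq_mul]
  norm_num

lemma laplacian_U (z : ℂ) : -(Laplacian.laplacian U z) = 2 := by
  have h1 : ContDiffAt ℝ 2 (fun z : ℂ => ‖z‖ ^ 2) z := (contDiff_norm_sq ℝ).contDiffAt
  have hharm : HarmonicAt (fun z ↦ (hol z).re) z := by
    apply AnalyticAt.harmonicAt_re
    unfold hol
    fun_prop
  have h0 : HarmonicAt (fun _ : ℂ => (1/2 : ℝ)) z := harmonicAt_const _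
  have hU : U = (fun _ : ℂ => (1/2 : ℝ)) + (((-1/2 : ℝ) • (fun w : ℂ => ‖w‖ ^ 2)) +
      (1/1000 : ℝ) • (fun z ↦ (hol z).re)) := by
    ext w
    simp [U]
    ring
  have hA : ContDiffAt ℝ 2 ((-1/2 : ℝ) • (fun w : ℂ => ‖w‖ ^ 2)) z := by
    change ContDiffAt ℝ 2 (fun w : ℂ => (-1/2 : ℝ) * ‖w‖ ^ 2) z
    fun_prop
  have hB : ContDiffAt ℝ 2 ((1/1000 : ℝ) • (fun z ↦ (hol z).re)) z := by
    have := hharm.1
    change ContDiffAt ℝ 2 (fun w : ℂ => (1/1000 : ℝ) * (hol w).re) z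
    fun_prop
  have hAB : ContDiffAt ℝ 2 (((-1/2 : ℝ) • (fun w : ℂ => ‖w‖ ^ 2)) +
      (1/1000 : ℝ) • (fun z ↦ (hol z).re)) z := hA.add hB
  rw [hU, ContDiffAt.laplacian_add h0.1 hAB, ContDiffAt.laplacian_add hA hB,
    laplacian_smul _ h1, laplacian_smul _ hharm.1, laplacian_normsq, h0.2.eq_of_nhds,
    hharm.2.eq_of_nhds]
  simp; norm_num

/-! ## Concavity -/

lemma pow_sub_pow_bound (n : ℕ) {z w : ℂ} {r : ℝ} (hz : ‖z‖ ≤ r) (hw : ‖w‖ ≤ r) :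
    ‖z ^ (n + 1) - w ^ (n + 1)‖ ≤ (n + 1) * r ^ n * ‖z - w‖ := by
  rw [← geom_sum₂_mul z w (n + 1), norm_mul]
  apply mul_le_mul_of_nonneg_right _ (norm_nonneg _)
  refine (norm_sum_le _ _).trans ?_
  have h : ∀ i ∈ Finset.range (n + 1), ‖z ^ i * w ^ (n + 1 - 1 - i)‖ ≤ r ^ n := by
    intro i hi
    rw [norm_mul, norm_pow, norm_pow]
    have hi' : i ≤ n := Nat.lt_succ_iff.1 (Finset.mem_range.1 hi)
    have hr : 0 ≤ r := (norm_nonneg z).trans hz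
    calc ‖z‖ ^ i * ‖w‖ ^ (n + 1 - 1 - i) ≤ r ^ i * r ^ (n + 1 - 1 - i) := by gcongr
      _ = r ^ n := by rw [← pow_add]; congr 1; omega
  refine (Finset.sum_le_sum h).trans ?_
  simp

/-- Convexity defect of powers. -/
lemma pow_defect (n : ℕ) {z w : ℂ} {a b r : ℝ} (ha : 0 ≤ a) (hb : 0 ≤ b) (hab : a + b = 1)
    (hr : 0 ≤ r) (hz : ‖z‖ ≤ r) (hw : ‖w‖ ≤ r) :
    ‖(a : ℂ) * z ^ (n + 1) + b * w ^ (n + 1) - (a * z + b * w) ^ (n + 1)‖
      ≤ a * b * ‖z - w‖ ^ 2 * ((n * (n + 1) / 2 : ℝ) * r ^ (n - 1)) := by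
  have hb' : b = 1 - a := by linarith
  have hm : ‖(a : ℂ) * z + b * w‖ ≤ r := by
    calc ‖(a : ℂ) * z + b * w‖ ≤ ‖(a : ℂ) * z‖ + ‖(b : ℂ) * w‖ := norm_add_le _ _
      _ = a * ‖z‖ + b * ‖w‖ := by
        rw [norm_mul, norm_mul, Complex.norm_real, Complex.norm_real, Real.norm_of_nonneg ha, Real.norm_of_nonneg hb]
      _ ≤ a * r + b * r := by gcongr
      _ = r := by rw [← add_mul, hab, one_mul]
  induction n with
  | zero => simp
  | succ n ih =>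
    have key : (a : ℂ) * z ^ (n + 1 + 1) + b * w ^ (n + 1 + 1) - (a * z + b * w) ^ (n + 1 + 1)
        = (a * z + b * w) * ((a : ℂ) * z ^ (n + 1) + b * w ^ (n + 1) - (a * z + b * w) ^ (n + 1))
          + (a * b) * ((z - w) * (z ^ (n + 1) - w ^ (n + 1))) := by
      rw [hb']
      push_cast
      ring
    rw [key]
    refine (norm_add_le _ _).trans ?_
    have h1 : ‖(a * z + b * w) * ((a : ℂ) * z ^ (n + 1) + b * w ^ (n + 1) - (a * z + b * w) ^ (n + 1))‖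
        ≤ r * (a * b * ‖z - w‖ ^ 2 * ((n * (n + 1) / 2 : ℝ) * r ^ (n - 1))) := by
      rw [norm_mul]
      exact mul_le_mul hm ih (norm_nonneg _) hr
    have h2 : ‖((a : ℂ) * b) * ((z - w) * (z ^ (n + 1) - w ^ (n + 1)))‖
        ≤ (a * b) * (‖z - w‖ * ((n + 1) * r ^ n * ‖z - w‖)) := by
      rw [norm_mul, norm_mul, norm_mul, Complex.norm_real, Complex.norm_real, Real.norm_of_nonneg ha, Real.norm_of_nonneg hb]
      gcongr
      exact pow_sub_pow_bound n hz hw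
    refine (add_le_add h1 h2).trans (le_of_eq ?_)
    rcases Nat.eq_zero_or_pos n with h0 | h0
    · subst h0; simp; left; ring
    · obtain ⟨k, rfl⟩ : ∃ k, n = k + 1 := ⟨n - 1, by omega⟩
      simp only [Nat.add_sub_cancel]
      push_cast
      ring

lemma U_concave {z w : ℂ} {a b : ℝ} (ha : 0 ≤ a) (hb : 0 ≤ b) (hab : a + b = 1)
    (hz : ‖z‖ ≤ 11/10) (hw : ‖w‖ ≤ 11/10) : a * U z + b * U w ≤ U (a * z + b * w) := by
  have h2 := pow_defect 1 ha hb hab (by norm_num) hz hw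
  have h4 := pow_defect 3 ha hb hab (by norm_num) hz hw
  have h6 := pow_defect 5 ha hb hab (by norm_num) hz hw
  norm_num at h2 h4 h6
  have hb' : b = 1 - a := by linarith
  have hn : a * ‖z‖ ^ 2 + b * ‖w‖ ^ 2 - ‖(a : ℂ) * z + b * w‖ ^ 2 = a * b * ‖z - w‖ ^ 2 := by
    simp only [← Complex.normSq_eq_norm_sq, Complex.normSq_apply, add_re, add_im, mul_re, mul_im, ofReal_re, ofReal_im, sub_re, sub_im]
    rw [hb']
    ring
  have hol_eq : a * (hol z).re + b * (hol w).re - (hol (a * z + b * w)).re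
      = (2 * ((a : ℂ) * z ^ 2 + b * w ^ 2 - (a * z + b * w) ^ 2)
        + ((a : ℂ) * z ^ 4 + b * w ^ 4 - (a * z + b * w) ^ 4)
        + ((a : ℂ) * z ^ 6 + b * w ^ 6 - (a * z + b * w) ^ 6)).re := by
    have e1 : a * (hol z).re = ((a : ℂ) * hol z).re := by simp
    have e2 : b * (hol w).re = ((b : ℂ) * hol w).re := by simp
    rw [e1, e2, ← add_re, ← sub_re]
    congr 1
    unfold hol
    ring
  have hle : a * (hol z).re + b * (hol w).re - (hol (a * z + b * w)).re ≤ a * b * ‖z - w‖ ^ 2 * 32 := by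
    rw [hol_eq]
    refine (Complex.re_le_norm _).trans ?_
    refine (norm_add_le _ _).trans ?_
    have := norm_add_le (2 * ((a : ℂ) * z ^ 2 + b * w ^ 2 - (a * z + b * w) ^ 2))
      ((a : ℂ) * z ^ 4 + b * w ^ 4 - (a * z + b * w) ^ 4)
    have h2' : ‖2 * ((a : ℂ) * z ^ 2 + b * w ^ 2 - (a * z + b * w) ^ 2)‖ ≤ 2 * (a * b * ‖z - w‖ ^ 2) := by
      rw [norm_mul]
      norm_num
      linarith
    have hnn : 0 ≤ a * b * ‖z - w‖ ^ 2 := by positivity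
    nlinarith
  have hnn : 0 ≤ a * b * ‖z - w‖ ^ 2 := by positivity
  have hU : U (a * z + b * w) - (a * U z + b * U w) = (1/2) * (a * ‖z‖ ^ 2 + b * ‖w‖ ^ 2 - ‖(a : ℂ) * z + b * w‖ ^ 2)
      - (1/1000) * (a * (hol z).re + b * (hol w).re - (hol (a * z + b * w)).re) := by
    unfold U
    rw [hb']
    ring
  rw [hn] at hU
  linarith

/-! ## The domain -/

/-- The domain. -/
def Om : Set ℂ := {z | ‖z‖ < 11/10 ∧ 0 < U z}

lemma norm_le_of_RR {z : ℂ} (h : RR z ≤ 1.009) : ‖z‖ < 11/10 := by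
  rw [RR_eq] at h
  nlinarith [norm_nonneg z]

lemma RR_le_of_norm {z : ℂ} (h : ‖z‖ ≤ 11/10) : RR z ≤ 121/100 := by
  rw [RR_eq]
  nlinarith [norm_nonneg z]

lemma zero_bounds {z : ℂ} (h : ‖z‖ ≤ 11/10) (hU : U z = 0) : 0.995 ≤ RR z ∧ RR z ≤ 1.009 := by
  rw [U_eq] at hU
  exact R_bounds (RR_nonneg z) (neg_RR_le z) (XX_le z) (RR_le_of_norm h) hU

lemma U_neg_outer {z : ℂ} (h1 : 51/50 ≤ RR z) (h2 : ‖z‖ ≤ 11/10) : U z < 0 := by
  rw [U_eq]
  exact outer_neg (neg_RR_le z) (XX_le z) h1 (RR_le_of_norm h2)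

lemma U_zero_val : U 0 = 1 / 2 := by
  simp [U, hol]

lemma isOpen_Om : IsOpen Om := by
  apply IsOpen.inter
  · exact isOpen_lt continuous_norm continuous_const
  · exact isOpen_lt continuous_const continuous_U

lemma zero_mem_Om : (0 : ℂ) ∈ Om := by
  constructor
  · simp
  · rw [U_zero_val]; norm_num

lemma isBounded_Om : Bornology.IsBounded Om := by
  apply (Metric.isBounded_ball (x := (0 : ℂ)) (r := 11/10)).subset
  intro z hz
  simpa using hz.1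

lemma convex_Om : Convex ℝ Om := by
  intro z hz w hw a b ha hb hab
  have hc := U_concave ha hb hab hz.1.le hw.1.le
  have e : a • z + b • w = (a : ℂ) * z + b * w := by simp
  rw [e]
  constructor
  · have : (a : ℂ) * z + b * w ∈ Metric.ball (0 : ℂ) (11/10) := by
      rw [← e]
      exact (convex_ball (0 : ℂ) (11/10)) (by simpa using hz.1) (by simpa using hw.1) ha hb hab
    simpa using this
  · have h1 := hz.2
    have h2 := hw.2
    rcases ha.eq_or_lt with h0 | h0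
    · have hb1 : b = 1 := by linarith
      subst hb1
      rw [← h0] at hc ⊢
      linarith
    · nlinarith [mul_pos h0 h1, mul_nonneg hb h2.le]

lemma closure_Om_subset : closure Om ⊆ {z | ‖z‖ ≤ 11/10 ∧ 0 ≤ U z} := by
  apply closure_minimal
  · intro z hz
    exact ⟨hz.1.le, hz.2.le⟩
  · apply IsClosed.inter
    · exact isClosed_le continuous_norm continuous_const
    · exact isClosed_le continuous_const continuous_U

lemma mem_frontier_Om (z : ℂ) : z ∈ frontier Om ↔ ‖z‖ < 11/10 ∧ U z = 0 := by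
  rw [isOpen_Om.frontier_eq]
  constructor
  · rintro ⟨h1, h2⟩
    have h3 := closure_Om_subset h1
    have h4 : RR z < 51/50 := by
      by_contra hcon
      have := U_neg_outer (not_lt.1 hcon) h3.1
      linarith [h3.2]
    have h5 : ‖z‖ < 11/10 := by
      rw [RR_eq] at h4
      nlinarith [norm_nonneg z]
    refine ⟨h5, ?_⟩
    by_contra hne
    exact h2 ⟨h5, lt_of_le_of_ne h3.2 (Ne.symm hne)⟩
  · rintro ⟨h1, h2⟩
    constructor
    · have hsub : openSegment ℝ 0 z ⊆ Om := by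
        rintro x ⟨a, b, ha, hb, hab, rfl⟩
        have hc := U_concave (z := 0) (w := z) ha.le hb.le hab (by simp; norm_num) h1.le
        have e : a • (0 : ℂ) + b • z = (a : ℂ) * 0 + b * z := by simp
        rw [e]
        constructor
        · rw [mul_zero, zero_add, norm_mul, Complex.norm_real, Real.norm_of_nonneg hb.le]
          nlinarith [norm_nonneg z]
        · rw [U_zero_val, h2] at hc
          nlinarith
      have h3 : z ∈ closure (openSegment ℝ 0 z) := by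
        rw [closure_openSegment]
        exact right_mem_segment ℝ 0 z
      exact closure_mono hsub h3
    · rintro ⟨_, h4⟩
      linarith

lemma U_refl (x y : ℝ) : U ⟨-x, y⟩ = U ⟨x, y⟩ ∧ U ⟨x, -y⟩ = U ⟨x, y⟩ := by
  simp [U_eq, XX, RR]

lemma axesSymmetric_Om : AxesSymmetric Om := by
  intro x y h
  have h1 := U_refl x y
  have n1 : ‖(⟨-x, y⟩ : ℂ)‖ = ‖(⟨x, y⟩ : ℂ)‖ := by
    have e1 := RR_eq ⟨-x, y⟩
    have e2 := RR_eq ⟨x, y⟩
    have : RR ⟨-x, y⟩ = RR ⟨x, y⟩ := by simp [RR]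
    rw [this, e2] at e1
    exact ((sq_eq_sq₀ (norm_nonneg _) (norm_nonneg _)).1 e1).symm
  have n2 : ‖(⟨x, -y⟩ : ℂ)‖ = ‖(⟨x, y⟩ : ℂ)‖ := by
    have e1 := RR_eq ⟨x, -y⟩
    have e2 := RR_eq ⟨x, y⟩
    have : RR ⟨x, -y⟩ = RR ⟨x, y⟩ := by simp [RR]
    rw [this, e2] at e1
    exact ((sq_eq_sq₀ (norm_nonneg _) (norm_nonneg _)).1 e1).symm
  refine ⟨⟨?_, ?_⟩, ⟨?_, ?_⟩⟩
  · rw [n1]; exact h.1
  · rw [h1.1]; exact h.2
  · rw [n2]; exact h.1
  · rw [h1.2]; exact h.2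

lemma G_ne_zero {z : ℂ} (h : ‖z‖ < 11/10) (hU : U z = 0) : 0 < ‖G z‖ ^ 2 := by
  obtain ⟨h1, h2⟩ := zero_bounds h.le hU
  rw [G_sq]
  have h3 := kp_le (neg_RR_le z) (XX_le z) h1 h2
  have h4 := np_nonneg z
  nlinarith

lemma hasC2Boundary_Om : HasC2Boundary Om := by
  intro q hq
  rw [mem_frontier_Om] at hq
  refine ⟨{z | ‖z‖ < 11/10}, isOpen_lt continuous_norm continuous_const, hq.1, U, contDiff_U,
    ?_, ?_, ?_⟩
  · intro h0
    have h1 := G_ne_zero hq.1 hq.2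
    have h2 : gradient U q = 0 := by
      rw [gradient, h0, map_zero]
    rw [gradient_U] at h2
    rw [h2] at h1
    simp at h1
  · intro z hz
    exact ⟨fun h => h.2, fun h => ⟨hz, h⟩⟩
  · intro z hz
    rw [mem_frontier_Om]
    exact ⟨fun h => h.2, fun h => ⟨hz, h⟩⟩

lemma isTorsionFunction_U : IsTorsionFunction Om U := by
  refine ⟨continuous_U.continuousOn, contDiff_U.contDiffOn, fun z _ => laplacian_U z, ?_⟩
  intro z hz
  exact ((mem_frontier_Om z).1 hz).2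

lemma isStress_Om : IsStress Om (fun z => ‖G z‖) := by
  refine ⟨U, isTorsionFunction_U, continuous_G.norm.continuousOn, ?_⟩
  intro z _
  rw [gradient_U]

/-! ## Special boundary points -/

/-- Intermediate value theorem along a ray. -/
lemma exists_on_ray (c d : ℝ) (hcd : c ^ 2 + d ^ 2 = 1 ∨ c ^ 2 + d ^ 2 = 13) :
    ∃ r : ℝ, 0 < r ∧ ‖(⟨c * r, d * r⟩ : ℂ)‖ < 11/10 ∧ U ⟨c * r, d * r⟩ = 0 := by
  obtain ⟨s, hs0, hs1⟩ : ∃ s : ℝ, 0 < s ∧ (c ^ 2 + d ^ 2) * s ^ 2 = 51/50 := by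
    have hpos : 0 < c ^ 2 + d ^ 2 := by rcases hcd with h | h <;> rw [h] <;> norm_num
    refine ⟨Real.sqrt (51/50 / (c ^ 2 + d ^ 2)), Real.sqrt_pos.2 (by positivity), ?_⟩
    rw [Real.sq_sqrt (by positivity)]
    field_simp
  have hcont : ContinuousOn (fun r : ℝ => U ⟨c * r, d * r⟩) (Set.Icc 0 s) := by
    apply Continuous.continuousOn
    apply continuous_U.comp
    have : (fun r : ℝ => (⟨c * r, d * r⟩ : ℂ))
        = fun r : ℝ => ((c * r : ℝ) : ℂ) + ((d * r : ℝ) : ℂ) * I := by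
      funext r
      exact Complex.mk_eq_add_mul_I _ _
    rw [this]
    fun_prop
  have hRRs : RR ⟨c * s, d * s⟩ = 51/50 := by
    rw [← hs1]; simp only [RR]; ring
  have hns : ‖(⟨c * s, d * s⟩ : ℂ)‖ < 11/10 := by
    rw [RR_eq] at hRRs
    nlinarith [norm_nonneg (⟨c * s, d * s⟩ : ℂ)]
  have hneg : U ⟨c * s, d * s⟩ < 0 := U_neg_outer hRRs.ge hns.le
  have hpos : 0 < U ⟨c * 0, d * 0⟩ := by
    have : (⟨c * 0, d * 0⟩ : ℂ) = 0 := by
      apply Complex.ext <;> simp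
    rw [this, U_zero_val]; norm_num
  have himg := intermediate_value_Icc' hs0.le hcont
  obtain ⟨r, hr, hr0⟩ := himg ⟨hneg.le, hpos.le⟩
  have hr0' : U ⟨c * r, d * r⟩ = 0 := hr0
  have hrpos : 0 < r := by
    rcases hr.1.eq_or_lt with h | h
    · rw [← h] at hr0'
      linarith
    · exact h
  have hrle : RR ⟨c * r, d * r⟩ ≤ 51/50 := by
    have e1 : RR ⟨c * r, d * r⟩ = (c ^ 2 + d ^ 2) * r ^ 2 := by simp only [RR]; ring
    rw [e1, ← hs1]
    have : r ^ 2 ≤ s ^ 2 := by nlinarith [hr.2]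
    have h0 : 0 ≤ c ^ 2 + d ^ 2 := by positivity
    exact mul_le_mul_of_nonneg_left this h0
  refine ⟨r, hrpos, ?_, hr0'⟩
  rw [RR_eq] at hrle
  nlinarith [norm_nonneg (⟨c * r, d * r⟩ : ℂ)]

lemma exists_far : ∃ r : ℝ, 0 < r ∧ ‖(⟨r, 0⟩ : ℂ)‖ < 11/10 ∧ U ⟨r, 0⟩ = 0 := by
  have h := exists_on_ray 1 0 (by norm_num)
  simpa using h

lemma exists_near : ∃ r : ℝ, 0 < r ∧ ‖(⟨0, r⟩ : ℂ)‖ < 11/10 ∧ U ⟨0, r⟩ = 0 := by
  have h := exists_on_ray 0 1 (by norm_num)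
  simpa using h

lemma exists_test : ∃ r : ℝ, 0 < r ∧ ‖(⟨3 * r, 2 * r⟩ : ℂ)‖ < 11/10 ∧ U ⟨3 * r, 2 * r⟩ = 0 :=
  exists_on_ray 3 2 (by norm_num)

lemma norm_lt_of_RR_lt {z w : ℂ} (h : RR z < RR w) : ‖z‖ < ‖w‖ := by
  rw [RR_eq, RR_eq] at h
  exact lt_of_pow_lt_pow_left₀ 2 (norm_nonneg _) h

lemma isFarthest_aux {r : ℝ} (h0 : 0 < r) (h1 : ‖(⟨r, 0⟩ : ℂ)‖ < 11/10) (h2 : U ⟨r, 0⟩ = 0) :
    IsFarthest Om ⟨r, 0⟩ := by
  refine ⟨⟨(mem_frontier_Om _).2 ⟨h1, h2⟩, h0.le, le_refl _⟩, ?_⟩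
  rintro z ⟨hz, hre, him⟩ hne
  rw [mem_frontier_Om] at hz
  apply norm_lt_of_RR_lt
  by_contra hcon
  have hb := zero_bounds hz.1.le hz.2
  have hb0 := zero_bounds h1.le h2
  have e1 := hz.2
  have e2 := h2
  rw [U_eq] at e1 e2
  have hXX : XX ⟨r, 0⟩ = RR ⟨r, 0⟩ := by simp [XX, RR]
  rw [hXX] at e2
  have := far_aux (neg_RR_le z) (XX_le z) hb.2 hb0.1 hb0.2 e1 e2 (not_lt.1 hcon)
  obtain ⟨k1, k2⟩ := this
  simp only [XX, RR] at k1 k2
  have him0 : z.im = 0 := by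
    have : z.im ^ 2 = 0 := by linarith
    exact pow_eq_zero_iff (two_ne_zero) |>.1 this
  have hre0 : z.re = r := by
    rw [him0] at k2
    have : z.re ^ 2 = r ^ 2 := by linarith
    exact (sq_eq_sq₀ hre h0.le).1 this
  exact hne (Complex.ext hre0 him0)

lemma isNearest_aux {r : ℝ} (h0 : 0 < r) (h1 : ‖(⟨0, r⟩ : ℂ)‖ < 11/10) (h2 : U ⟨0, r⟩ = 0) :
    IsNearest Om ⟨0, r⟩ := by
  refine ⟨⟨(mem_frontier_Om _).2 ⟨h1, h2⟩, le_refl _, h0.le⟩, ?_⟩
  rintro z ⟨hz, hre, him⟩ hne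
  rw [mem_frontier_Om] at hz
  apply norm_lt_of_RR_lt
  by_contra hcon
  have hb := zero_bounds hz.1.le hz.2
  have hb0 := zero_bounds h1.le h2
  have e1 := hz.2
  have e2 := h2
  rw [U_eq] at e1 e2
  have hXX : XX ⟨0, r⟩ = -RR ⟨0, r⟩ := by simp [XX, RR]
  rw [hXX] at e2
  have := near_aux (neg_RR_le z) hb.1 hb.2 hb0.1 hb0.2 e1 e2 (not_lt.1 hcon)
  obtain ⟨k1, k2⟩ := this
  simp only [XX, RR] at k1 k2
  have hre0 : z.re = 0 := by
    have : z.re ^ 2 = 0 := by linarith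
    exact pow_eq_zero_iff (two_ne_zero) |>.1 this
  have him0 : z.im = r := by
    rw [hre0] at k2
    have : z.im ^ 2 = r ^ 2 := by linarith
    exact (sq_eq_sq₀ him h0.le).1 this
  exact hne (Complex.ext hre0 him0)

lemma not_ball (c : ℂ) (ρ : ℝ) : Om ≠ Metric.ball c ρ := by
  intro hEq
  obtain ⟨r, r0, r1, r2⟩ := exists_far
  obtain ⟨s, s0, s1, s2⟩ := exists_near
  have key : ∀ z : ℂ, ‖z‖ < 11/10 → U z = 0 → ‖z - c‖ = ρ := by
    intro z h1 h2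
    have h3 : z ∈ frontier Om := (mem_frontier_Om z).2 ⟨h1, h2⟩
    rw [hEq] at h3
    have h4 := Metric.frontier_ball_subset_sphere h3
    rwa [mem_sphere_iff_norm] at h4
  have hneg : ∀ z : ℂ, ‖z‖ < 11/10 → U z = 0 → RR z = ρ ^ 2 - RR c := by
    intro z h1 h2
    have k1 := key z h1 h2
    have hU : U (-z) = 0 := by
      rw [U_eq] at h2 ⊢
      simpa [XX, RR] using h2
    have k2 := key (-z) (by simpa using h1) hU
    have e1 : RR (z - c) = ρ ^ 2 := by rw [RR_eq, k1]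
    have e2 : RR (-z - c) = ρ ^ 2 := by rw [RR_eq, k2]
    simp only [RR, sub_re, sub_im, neg_re, neg_im] at e1 e2 ⊢
    linarith
  have a1 := hneg _ r1 r2
  have a2 := hneg _ s1 s2
  have hfar := (isFarthest_aux r0 r1 r2).2 ⟨0, s⟩
    ⟨(mem_frontier_Om _).2 ⟨s1, s2⟩, le_refl _, s0.le⟩ (by
      intro h
      have := congrArg Complex.re h
      simp at this
      linarith)
  have a3 : RR ⟨0, s⟩ = RR ⟨r, 0⟩ := by rw [a1, a2]
  rw [RR_eq, RR_eq] at a3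
  have := (sq_eq_sq₀ (norm_nonneg _) (norm_nonneg _)).1 a3
  linarith

lemma admissible_Om : Admissible Om :=
  ⟨isOpen_Om, ⟨0, zero_mem_Om⟩, isBounded_Om, convex_Om, axesSymmetric_Om, hasC2Boundary_Om,
    not_ball⟩

/-! ## Points of maximal stress -/

lemma isCompact_arc : IsCompact (arc Om) := by
  have h1 : IsCompact (frontier Om) :=
    Metric.isCompact_of_isClosed_isBounded isClosed_frontier
      (isBounded_Om.closure.subset frontier_subset_closure)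
  have h2 : arc Om = frontier Om ∩ ({z : ℂ | 0 ≤ z.re} ∩ {z : ℂ | 0 ≤ z.im}) := rfl
  rw [h2]
  apply h1.inter_right
  apply IsClosed.inter
  · exact isClosed_le continuous_const continuous_re
  · exact isClosed_le continuous_const continuous_im

lemma exists_max : ∃ p ∈ arc Om, ∀ q ∈ frontier Om, ‖G q‖ ≤ ‖G p‖ := by
  obtain ⟨r, r0, r1, r2⟩ := exists_far
  have hne : (arc Om).Nonempty := ⟨_, (isFarthest_aux r0 r1 r2).1⟩
  obtain ⟨p, hp, hmax⟩ := isCompact_arc.exists_isMaxOn hne continuous_G.norm.continuousOn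
  refine ⟨p, hp, ?_⟩
  intro q hq
  rw [mem_frontier_Om] at hq
  have hX : XX ⟨|q.re|, |q.im|⟩ = XX q := by simp [XX]
  have hR : RR ⟨|q.re|, |q.im|⟩ = RR q := by simp [RR]
  have hq' : (⟨|q.re|, |q.im|⟩ : ℂ) ∈ arc Om := by
    refine ⟨(mem_frontier_Om _).2 ⟨?_, ?_⟩, abs_nonneg _, abs_nonneg _⟩
    · have : ‖(⟨|q.re|, |q.im|⟩ : ℂ)‖ ^ 2 = ‖q‖ ^ 2 := by rw [← RR_eq, ← RR_eq, hR]
      rw [(sq_eq_sq₀ (norm_nonneg _) (norm_nonneg _)).1 this]
      exact hq.1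
    · rw [U_eq, hX, hR, ← U_eq]; exact hq.2
  have h1 : ‖G ⟨|q.re|, |q.im|⟩‖ ≤ ‖G p‖ := hmax hq'
  have h2 : ‖G ⟨|q.re|, |q.im|⟩‖ = ‖G q‖ := by
    have : ‖G ⟨|q.re|, |q.im|⟩‖ ^ 2 = ‖G q‖ ^ 2 := by rw [G_sq, G_sq, hX, hR]
    exact (sq_eq_sq₀ (norm_nonneg _) (norm_nonneg _)).1 this
  rwa [h2] at h1

/-- The farthest boundary point has abscissa bigger than one. -/
lemma one_lt_far {r : ℝ} (h0 : 0 < r) (h2 : U ⟨r, 0⟩ = 0) : 1 < r := by
  rw [U_eq] at h2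
  have e1 : XX ⟨r, 0⟩ = r ^ 2 := by simp [XX]
  have e2 : RR ⟨r, 0⟩ = r ^ 2 := by simp [RR]
  rw [e1, e2] at h2
  have e3 : hp (r ^ 2) (r ^ 2) = 2 * r ^ 2 + (r ^ 2) ^ 2 + (r ^ 2) ^ 3 := by unfold hp; ring
  rw [e3] at h2
  have h4 : 0 < r ^ 2 := by positivity
  have h5 : 0 < (r ^ 2) ^ 2 := by positivity
  have h6 : 0 < (r ^ 2) ^ 3 := by positivity
  have h7 : 1 < r ^ 2 := by linarith
  nlinarith

/-- The nearest boundary point has ordinate smaller than one. -/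
lemma near_lt_one {s : ℝ} (h0 : 0 < s) (h2 : U ⟨0, s⟩ = 0) : s < 1 := by
  rw [U_eq] at h2
  have e1 : XX ⟨0, s⟩ = -s ^ 2 := by simp [XX]
  have e2 : RR ⟨0, s⟩ = s ^ 2 := by simp [RR]
  rw [e1, e2] at h2
  have e3 : hp (-s ^ 2) (s ^ 2) = -(s ^ 2) * (1 + (1/2 - s ^ 2) ^ 2 + 3/4) := by unfold hp; ring
  rw [e3] at h2
  have h4 : 0 < s ^ 2 * (1 + (1/2 - s ^ 2) ^ 2 + 3/4) := by positivity
  have h7 : s ^ 2 < 1 := by linarith
  nlinarith

lemma X_small {x y r s : ℝ} (hx : 0 ≤ x) (hy : 0 ≤ y) (hr : 1 < r) (hs : s < 1)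
    (h1 : x ^ 2 + y ^ 2 ≤ 1.009) (h2 : r ^ 2 ≤ 1.009) (h3 : 0.995 ≤ s ^ 2)
    (hd : x ^ 2 + (y - s) ^ 2 ≤ (x - r) ^ 2 + y ^ 2) : x ^ 2 - y ^ 2 ≤ 1/40 := by
  have k1 : 2 * (x * r) ≤ 2 * (y * s) + (r ^ 2 - s ^ 2) := by linarith
  have k2 : x * 1 ≤ x * r := mul_le_mul_of_nonneg_left hr.le hx
  have k3 : y * s ≤ y * 1 := mul_le_mul_of_nonneg_left hs.le hy
  have k4 : x - y ≤ 0.007 := by linarith
  have k5 : x ≤ 1.1 := by nlinarith
  have k6 : y ≤ 1.1 := by nlinarith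
  have k7 : (x - y) * (x + y) ≤ 0.007 * (x + y) := mul_le_mul_of_nonneg_right k4 (by linarith)
  linarith

/-- Main estimate. -/
lemma main_estimate {r s : ℝ} {p : ℂ} (r0 : 0 < r) (r1 : ‖(⟨r, 0⟩ : ℂ)‖ < 11/10)
    (r2 : U ⟨r, 0⟩ = 0) (s0 : 0 < s) (s1 : ‖(⟨0, s⟩ : ℂ)‖ < 11/10) (s2 : U ⟨0, s⟩ = 0)
    (hp : p ∈ arc Om) (hmax : ∀ q ∈ frontier Om, ‖G q‖ ≤ ‖G p‖) :
    dist p ⟨r, 0⟩ < dist p ⟨0, s⟩ := by
  by_contra hcon
  rw [not_lt] at hcon
  obtain ⟨hpf, hre, him⟩ := hp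
  rw [mem_frontier_Om] at hpf
  have hpb := zero_bounds hpf.1.le hpf.2
  have hrb := zero_bounds r1.le r2
  have hsb := zero_bounds s1.le s2
  -- the abscissa and ordinate of `p`
  have hd : (dist p ⟨0, s⟩) ^ 2 ≤ (dist p ⟨r, 0⟩) ^ 2 := by
    exact pow_le_pow_left₀ dist_nonneg hcon 2
  rw [dist_eq_norm, dist_eq_norm, ← RR_eq, ← RR_eq] at hd
  simp only [RR, sub_re, sub_im, sub_zero] at hd
  simp only [RR] at hrb hsb hpb
  have hX : XX p ≤ 1/40 := by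
    apply X_small hre him (one_lt_far r0 r2) (near_lt_one s0 s2) hpb.2 (by linarith [hrb.2])
      (by linarith [hsb.1]) hd
  have hS := sp_lower (neg_RR_le p) hX (by simpa [RR] using hpb.1) (by simpa [RR] using hpb.2)
  have hN := np_le (neg_RR_le p) (XX_le p) (by simpa [RR] using hpb.1) (by simpa [RR] using hpb.2)
  have hGp := G_sq_of_zero p hpf.2
  obtain ⟨t, t0, t1, t2⟩ := exists_test
  have htb := zero_bounds t1.le t2
  have hXt : XX ⟨3 * t, 2 * t⟩ = 5/13 * RR ⟨3 * t, 2 * t⟩ := by simp only [XX, RR]; ring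
  have hSt := sp_test htb.1 htb.2
  have hGt := G_sq_of_zero _ t2
  rw [hXt] at hGt
  have hNt := np_nonneg (⟨3 * t, 2 * t⟩ : ℂ)
  rw [hXt] at hNt
  have hle := hmax ⟨3 * t, 2 * t⟩ ((mem_frontier_Om _).2 ⟨t1, t2⟩)
  have hle2 : ‖G ⟨3 * t, 2 * t⟩‖ ^ 2 ≤ ‖G p‖ ^ 2 := pow_le_pow_left₀ (norm_nonneg _) hle 2
  rw [hGt, hGp] at hle2
  linarith

/-- There are a bounded convex open set `Ω` in the plane, symmetric in both coordinate axes, with
`C²` boundary and not a disk, whose arc in the closed first quadrant has a unique farthest point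
`xfar` and a unique nearest point `xnear` from the origin, and a point `p` of maximal stress on
that arc, such that `|p - xnear| > |p - xfar|`. -/
theorem result : ∃ (Ω : Set ℂ) (xfar xnear p : ℂ), Admissible Ω ∧ IsFarthest Ω xfar ∧
    IsNearest Ω xnear ∧ IsMaxStressPoint Ω p ∧ dist p xfar < dist p xnear := by
  obtain ⟨r, r0, r1, r2⟩ := exists_far
  obtain ⟨s, s0, s1, s2⟩ := exists_near
  obtain ⟨p, hp, hmax⟩ := exists_max
  exact ⟨Om, ⟨r, 0⟩, ⟨0, s⟩, p, admissible_Om, isFarthest_aux r0 r1 r2, isNearest_aux s0 s1 s2,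
    ⟨hp, fun z => ‖G z‖, isStress_Om, hmax⟩, main_estimate r0 r1 r2 s0 s1 s2 hp hmax⟩

end Pool.Agent.Results.MP_f43ce7_an.MaximalStress
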